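import Pool.Agent.helper57.MS.Spec2

/-!
Row ms:PRT (MP_b48e27_co): decomposable restrictions.
-/

set_option autoImplicit false

open Finset

namespace Pool.Agent.helper57.MS

open Pool.Agent.RRank Pool.Agent.helper26.IM

section
variable {K : Type} {Ω : Type} [DecidableEq Ω] {Q : Ω → Type}

theorem PRT_res_in {S : Finset Ω} (q : (ω : Ω) → Q ω) {f : ((ω : Ω) → Q ω) → K}
    (hf : DependsOn f (S : Set Ω)) : res S q f = f := by
  funext x
  refine hf fun ω hω => ?_
  show (if ω ∈ S then x ω else q ω) = x ω
  rw [if_pos (Finset.mem_coe.1 hω)]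

theorem PRT_res_out {S S' : Finset Ω} (h : Disjoint S S') (q : (ω : Ω) → Q ω)
    {f : ((ω : Ω) → Q ω) → K} (hf : DependsOn f (S' : Set Ω)) : res S q f = fun _ => f q := by
  funext x
  refine hf fun ω hω => ?_
  show (if ω ∈ S then x ω else q ω) = q ω
  rw [if_neg fun h1 => (Finset.disjoint_left.1 h h1) (Finset.mem_coe.1 hω)]

end

theorem PRT (hBAS : BAS_stmt) (hIDB : IDB_stmt) (hEXP : EXP_stmt) (hRES : RES_stmt) :
    PRT_stmt := by
  intro K _ d Q F A hA T hT hdec
  obtain ⟨s, hs⟩ := hA
  obtain ⟨B, hB⟩ := hBAS K (Fin d) Q F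
  obtain ⟨κ, hκ, J, b, r, hJ, hb, hr, hinj, hsum⟩ := hEXP K (Fin d) Q F B hB univ s (mem_univ s) T hT
  have hind : F.Ind J b := hIDB K (Fin d) Q F B hB κ J b hb hinj
  have hbE : ∀ k, b k ∈ F.E (J k) := fun k => hB.mem (J k) (b k) (hb k)
  -- the claim
  have claim : ∀ k, A ⊆ J k → r k = 0 := by
    by_contra hcon
    push Not at hcon
    obtain ⟨k₀, hk₀, hk₀r⟩ := hcon
    classical
    obtain ⟨k₁, hk₁, hmax⟩ := Finset.exists_max_image
      ((univ : Finset κ).filter fun k => A ⊆ J k ∧ r k ≠ 0) (fun k => (J k).card)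
      ⟨k₀, by simp [hk₀, hk₀r]⟩
    rw [mem_filter] at hk₁
    obtain ⟨-, hA₁, hr₁⟩ := hk₁
    obtain ⟨q, hq⟩ : ∃ q, r k₁ q ≠ 0 := by
      by_contra h
      push Not at h
      exact hr₁ (funext h)
    have h1 : res (J k₁) q T = ∑ k, res (J k₁) q (b k) * res (J k₁) q (r k) := by
      rw [hsum]
      funext x
      show (∑ k, b k * r k) (fun ω => if ω ∈ J k₁ then x ω else q ω) =
        (∑ k, res (J k₁) q (b k) * res (J k₁) q (r k)) x
      rw [Finset.sum_apply, Finset.sum_apply]
      rfl
    have h2 : ∀ k, res (J k₁) q (b k) * res (J k₁) q (r k) -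
        (if J k = J k₁ then r k q else 0) • b k ∈ F.D (J k₁) := by
      intro k
      by_cases hk : J k = J k₁
      · rw [if_pos hk]
        have e1 : res (J k₁) q (b k) = b k := by
          rw [← hk]
          exact PRT_res_in q (F.dep _ _ (hbE k))
        have e2 : res (J k₁) q (r k) = fun _ => r k q := by
          rw [← hk]
          exact PRT_res_out Finset.disjoint_sdiff q (F.dep _ _ (hr k))
        rw [e1, e2]
        have e3 : (b k * fun _ => r k q) - r k q • b k = 0 := by
          funext x
          show b k x * r k q - r k q * b k x = 0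
          ring
        rw [e3]
        exact Submodule.zero_mem _
      · rw [if_neg hk, zero_smul, sub_zero]
        by_cases hsub : J k₁ ⊆ J k
        · have hr0 : r k = 0 := by
            by_contra hne
            have h3 := hmax k (by
              rw [mem_filter]
              exact ⟨mem_univ k, hA₁.trans hsub, hne⟩)
            exact hk (Finset.eq_of_subset_of_card_le hsub h3).symm
          have e1 : res (J k₁) q (r k) = 0 := by
            rw [hr0]
            rfl
          rw [e1, mul_zero]
          exact Submodule.zero_mem _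
        · refine Submodule.subset_span ⟨J k ∩ J k₁, (univ \ J k) ∩ J k₁,
            ⟨s, mem_inter.2 ⟨(hJ k).1, hA₁ hs⟩⟩, ?_, ?_, ?_, _,
            hRES K (Fin d) Q F (J k₁) (J k) q (b k) (hbE k), _,
            hRES K (Fin d) Q F (J k₁) (univ \ J k) q (r k) (hr k), rfl⟩
          · obtain ⟨x, hx, hx'⟩ := Finset.not_subset.1 hsub
            exact ⟨x, mem_inter.2 ⟨mem_sdiff.2 ⟨mem_univ x, hx'⟩, hx⟩⟩
          · rw [Finset.disjoint_left]
            intro x hx hx'
            exact (mem_sdiff.1 (mem_inter.1 hx').1).2 (mem_inter.1 hx).1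
          · ext x
            simp only [mem_union, mem_inter, mem_sdiff, mem_univ, true_and]
            tauto
    have h3 : (∑ k, (if J k = J k₁ then r k q else 0) • b k) ∈ F.D (J k₁) := by
      have h4 := hdec (J k₁) hA₁ q
      rw [h1] at h4
      have h5 := Submodule.sum_mem (F.D (J k₁)) (t := (univ : Finset κ)) fun k _ => h2 k
      have h6 := Submodule.sub_mem _ h4 h5
      rw [← Finset.sum_sub_distrib] at h6
      have h7 : (∑ k, (res (J k₁) q (b k) * res (J k₁) q (r k) -
          (res (J k₁) q (b k) * res (J k₁) q (r k) - (if J k = J k₁ then r k q else 0) • b k))) =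
          ∑ k, (if J k = J k₁ then r k q else 0) • b k :=
        Finset.sum_congr rfl fun k _ => sub_sub_cancel _ _
      rw [h7] at h6
      exact h6
    have h4 := hind (J k₁) (fun k => if J k = J k₁ then r k q else 0)
      (fun k hk => if_neg hk) h3 k₁
    rw [if_pos rfl] at h4
    exact hq h4
  rw [hsum]
  refine Submodule.sum_mem _ fun k _ => ?_
  by_cases hk : A ⊆ J k
  · rw [claim k hk, mul_zero]
    exact Submodule.zero_mem _
  · have h1 : (J k).Nonempty := ⟨s, (hJ k).1⟩
    have h2 : ((J k)ᶜ).Nonempty := by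
      obtain ⟨x, _, hx⟩ := Finset.not_subset.1 hk
      exact ⟨x, mem_compl.2 hx⟩
    have hne : J k ≠ (J k)ᶜ := by
      intro h
      have h3 : s ∈ (J k)ᶜ := h ▸ (hJ k).1
      exact (mem_compl.1 h3) (hJ k).1
    refine Submodule.subset_span ⟨pairPartition (J k) h1 h2, ?_,
      fun I => if I = J k then b k else r k, ?_, ?_⟩
    · intro I hI hAI
      have hI' : I ∈ ({J k, (J k)ᶜ} : Finset (Finset (Fin d))) := hI
      rw [mem_insert, mem_singleton] at hI'
      rcases hI' with rfl | rfl
      · exact hk hAI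
      · exact (mem_compl.1 (hAI hs)) (hJ k).1
    · intro I hI
      have hI' : I ∈ ({J k, (J k)ᶜ} : Finset (Finset (Fin d))) := hI
      rw [mem_insert, mem_singleton] at hI'
      rcases hI' with rfl | rfl
      · show (if J k = J k then b k else r k) ∈ F.E (J k)
        rw [if_pos rfl]
        exact hbE k
      · show (if (J k)ᶜ = J k then b k else r k) ∈ F.E (J k)ᶜ
        rw [if_neg (Ne.symm hne)]
        have h3 := hr k
        rw [← Finset.compl_eq_univ_sdiff] at h3
        exact h3
    · show b k * r k = ∏ I ∈ ({J k, (J k)ᶜ} : Finset (Finset (Fin d))),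
        (if I = J k then b k else r k)
      rw [Finset.prod_pair hne, if_pos rfl, if_neg (Ne.symm hne)]

end Pool.Agent.helper57.MS
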